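import Mathlib

/-!
# A subgroup of the circle which is not `I*`-characterized for any ideal

There is a `σ`-compact subgroup `H` of `𝕋 = ℝ/ℤ` such that `H ≠ H*_a(I)` for every ideal `I` on `ℕ`
and every sequence `a` of integers.

Let `x` be of infinite order and choose `D 0 = 1`, `D 1`, `D 2`, ... such that `‖D (s+1) x‖` is very
small compared with the numbers `‖K x‖`, `0 < |K| ≤ 2 (s + 1) (D 0 + ... + D s)`. Put
`H = {∑ c_s D_s x : c a bounded sequence of integers}`. If `H = H*_a(I)`, then `x ∈ H` gives a set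
`S₀ ∈ I` and a function `f` with `‖a_n x‖ < 1/(N+1)` if `n ∉ S₀`, `|a_n| > f N`. Choose a sparse set
`A` depending on `f`, `x' = ∑_{s ∈ A} D_s x ∈ H`. We get a set `S₁` and a function `f'` for `x'`. Now
choose a very sparse sequence `t_0 < t_1 < ...` in `A`, depending on `f'`, and put
`y = ∑_l ∑_{s ∈ A, s > t_l} D_s x`. This is approximated so well by
`(j + 1) x' - (integer) x` that `a_n y → 0` for `n ∉ S₀ ∪ S₁`. But `y` is not in `H`, as its
coefficients are unbounded.
-/

open Filter Topology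

namespace Pool.Agent.Results.MP_8013b9_lc.NotIStarCharacterized

/-- `I` is a (proper) ideal on `ℕ` containing all finite sets. -/
structure IsIdeal (I : Set (Set ℕ)) : Prop where
  subset : ∀ A ∈ I, ∀ B, B ⊆ A → B ∈ I
  union : ∀ A ∈ I, ∀ B ∈ I, A ∪ B ∈ I
  finite : ∀ A : Set ℕ, A.Finite → A ∈ I
  proper : (Set.univ : Set ℕ) ∉ I

/-- `H*_a(I)`: the set of all `x` in the circle for which there is `S ∈ I` such that `a_n x`
converges to `0` along the complement of `S`. -/
def Hstar (a : ℕ → ℤ) (I : Set (Set ℕ)) : Set UnitAddCircle :=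
  {x | ∃ S ∈ I, Tendsto (fun n => a n • x) (atTop ⊓ 𝓟 Sᶜ) (𝓝 0)}

/-! ### Preparations -/

theorem base_ne (K : ℤ) (hK : K ≠ 0) : K • ((√2 : ℝ) : UnitAddCircle) ≠ 0 := by
  intro h
  rw [← AddCircle.coe_zsmul, AddCircle.coe_eq_zero_iff] at h
  obtain ⟨n, hn⟩ := h
  have h2 : Irrational ((K : ℝ) * √2) := irrational_sqrt_two.intCast_mul hK
  apply h2
  refine ⟨(n : ℚ), ?_⟩
  simp only [zsmul_eq_mul, mul_one] at hn
  push_cast
  exact hn

theorem small (x : UnitAddCircle) (ε : ℝ) (hε : 0 < ε) :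
    ∃ n : ℕ, 1 ≤ n ∧ ‖(n : ℤ) • x‖ ≤ ε := by
  obtain ⟨m, hm⟩ := exists_nat_gt (1 / ε)
  have hm0 : 0 < m := by
    have : (0 : ℝ) < m := lt_trans (by positivity) hm
    exact_mod_cast this
  obtain ⟨j, hj, h⟩ := AddCircle.exists_norm_nsmul_le (T := (1 : ℝ)) x hm0
  refine ⟨j, (Set.mem_Icc.mp hj).1, ?_⟩
  rw [natCast_zsmul]
  refine h.trans ?_
  rw [div_le_iff₀ (by positivity)]
  rw [div_lt_iff₀ hε] at hm
  push_cast
  nlinarith

/-- a positive antitone lower bound for `‖K x‖` -/
noncomputable def nu (x : UnitAddCircle) : ℕ → ℝ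
  | 0 => 1
  | M + 1 => min (nu x M) ‖((M + 1 : ℕ) : ℤ) • x‖

theorem nu_pos {x : UnitAddCircle} (hx : ∀ K : ℤ, K ≠ 0 → K • x ≠ 0) (M : ℕ) : 0 < nu x M := by
  induction M with
  | zero => simp [nu]
  | succ M ih =>
    rw [nu]
    exact lt_min ih (norm_pos_iff.mpr (hx _ (by positivity)))

theorem nu_anti (x : UnitAddCircle) : Antitone (nu x) := by
  apply antitone_nat_of_succ_le
  intro n
  rw [nu]
  exact min_le_left _ _

theorem nu_le_nat (x : UnitAddCircle) (M K : ℕ) (hK : K ≠ 0) (h : K ≤ M) :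
    nu x M ≤ ‖(K : ℤ) • x‖ := by
  obtain ⟨k, rfl⟩ := Nat.exists_eq_succ_of_ne_zero hK
  refine (nu_anti x h).trans ?_
  rw [nu]
  exact min_le_right _ _

theorem nu_le (x : UnitAddCircle) (M : ℕ) (K : ℤ) (hK : K ≠ 0) (h : |K| ≤ M) :
    nu x M ≤ ‖K • x‖ := by
  have h1 := nu_le_nat x M K.natAbs (by simpa using hK) (by
    have : ((K.natAbs : ℕ) : ℤ) ≤ M := by rw [Int.natCast_natAbs]; exact h
    exact_mod_cast this)
  rcases Int.natAbs_eq K with h2 | h2
  · rw [h2]; exact h1
  · rw [h2, neg_smul, norm_neg]; exact h1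

/-- The sequence `D` exists. -/
theorem exists_D {x : UnitAddCircle} (hx : ∀ K : ℤ, K ≠ 0 → K • x ≠ 0) :
    ∃ D : ℕ → ℕ, D 0 = 1 ∧ (∀ s, 1 ≤ D s) ∧ ∀ s : ℕ, 2 * ((s : ℝ) + 2) * ‖(D (s + 1) : ℤ) • x‖ ≤
      nu x (2 * (s + 1) * ∑ i ∈ Finset.range (s + 1), D i) / 2 ^ (s + 2) := by
  have hpick : ∀ (s S : ℕ), ∃ n : ℕ, 1 ≤ n ∧ 2 * ((s : ℝ) + 2) * ‖(n : ℤ) • x‖ ≤
      nu x (2 * (s + 1) * S) / 2 ^ (s + 2) := by
    intro s S
    have h0 : 0 < nu x (2 * (s + 1) * S) / 2 ^ (s + 2) / (2 * ((s : ℝ) + 2)) := by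
      have := nu_pos hx (2 * (s + 1) * S)
      positivity
    obtain ⟨n, hn, h⟩ := small x _ h0
    refine ⟨n, hn, ?_⟩
    rw [le_div_iff₀ (by positivity)] at h
    linarith
  choose pick hp1 hp2 using hpick
  let S : ℕ → ℕ := fun n => Nat.rec 1 (fun s S => S + pick s S) n
  have hS0 : S 0 = 1 := rfl
  have hS : ∀ s, S (s + 1) = S s + pick s (S s) := fun s => rfl
  let D : ℕ → ℕ := fun n => Nat.casesOn n 1 (fun s => pick s (S s))
  have hD0 : D 0 = 1 := rfl
  have hD : ∀ s, D (s + 1) = pick s (S s) := fun s => rfl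
  have hSD : ∀ s, ∑ i ∈ Finset.range (s + 1), D i = S s := by
    intro s
    induction s with
    | zero => simp [hD0, hS0]
    | succ s ih => rw [Finset.sum_range_succ, ih, hS, hD]
  refine ⟨D, hD0, ?_, ?_⟩
  · intro s
    cases s with
    | zero => rw [hD0]
    | succ s => rw [hD]; exact hp1 _ _
  · intro s
    rw [hSD, hD]
    exact hp2 _ _

/-! ### The group -/

section group

variable {x : UnitAddCircle} (hx : ∀ K : ℤ, K ≠ 0 → K • x ≠ 0) {D : ℕ → ℕ} (hD0 : D 0 = 1)
  (hD1 : ∀ s, 1 ≤ D s) (hD : ∀ s : ℕ, 2 * ((s : ℝ) + 2) * ‖(D (s + 1) : ℤ) • x‖ ≤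
      nu x (2 * (s + 1) * ∑ i ∈ Finset.range (s + 1), D i) / 2 ^ (s + 2))

/-- the weights -/
noncomputable def w (x : UnitAddCircle) (D : ℕ → ℕ) (s : ℕ) : ℝ :=
  2 * ((s : ℝ) + 1) * ‖(D s : ℤ) • x‖

/-- the tails of the series of the weights -/
noncomputable def W (x : UnitAddCircle) (D : ℕ → ℕ) (t : ℕ) : ℝ := ∑' k, w x D (k + t)

/-- the sum of the series with the coefficients `c` -/
noncomputable def Phi (x : UnitAddCircle) (D : ℕ → ℕ) (c : ℕ → ℤ) : UnitAddCircle :=
  ∑' s, c s • ((D s : ℤ) • x)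

theorem w_nonneg (x : UnitAddCircle) (D : ℕ → ℕ) (s : ℕ) : 0 ≤ w x D s := by
  unfold w; positivity

include hD

theorem w_succ (s : ℕ) : w x D (s + 1) ≤
    nu x (2 * (s + 1) * ∑ i ∈ Finset.range (s + 1), D i) / 2 ^ (s + 2) := by
  have := hD s
  unfold w
  push_cast
  convert this using 3
  ring

theorem w_shift (I k : ℕ) : w x D (k + (I + 1)) ≤
    nu x (2 * (I + 1) * ∑ i ∈ Finset.range (I + 1), D i) / 2 ^ (I + 2) * (1 / 2) ^ k := by
  have h1 := w_succ hD (k + I)
  have h2 : nu x (2 * (k + I + 1) * ∑ i ∈ Finset.range (k + I + 1), D i) ≤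
      nu x (2 * (I + 1) * ∑ i ∈ Finset.range (I + 1), D i) := by
    apply nu_anti
    apply Nat.mul_le_mul
    · omega
    · apply Finset.sum_le_sum_of_subset
      intro i hi
      simp only [Finset.mem_range] at hi ⊢
      omega
  have h3 : w x D (k + (I + 1)) ≤
      nu x (2 * (I + 1) * ∑ i ∈ Finset.range (I + 1), D i) / 2 ^ (k + I + 2) := by
    refine le_trans (le_of_eq (by rw [← add_assoc])) (h1.trans ?_)
    gcongr
  refine h3.trans (le_of_eq ?_)
  rw [one_div, inv_pow, show k + I + 2 = k + (I + 2) by ring, pow_add]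
  field_simp

theorem w_summable : Summable (w x D) := by
  rw [← summable_nat_add_iff 1]
  refine Summable.of_nonneg_of_le (fun k => w_nonneg _ _ _) (fun k => w_shift hD 0 k) ?_
  exact (summable_geometric_of_lt_one (by norm_num) (by norm_num)).mul_left _

theorem W_lt (hx : ∀ K : ℤ, K ≠ 0 → K • x ≠ 0) (I : ℕ) : W x D (I + 1) <
    nu x (2 * (I + 1) * ∑ i ∈ Finset.range (I + 1), D i) := by
  set v := nu x (2 * (I + 1) * ∑ i ∈ Finset.range (I + 1), D i) with hv
  have hv0 : 0 < v := nu_pos hx _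
  have hs : Summable (fun k : ℕ => v / 2 ^ (I + 2) * (1 / 2 : ℝ) ^ k) :=
    (summable_geometric_of_lt_one (by norm_num) (by norm_num)).mul_left _
  have h1 : W x D (I + 1) ≤ ∑' k : ℕ, v / 2 ^ (I + 2) * (1 / 2 : ℝ) ^ k := by
    unfold W
    exact Summable.tsum_le_tsum (fun k => w_shift hD I k)
      ((summable_nat_add_iff (I + 1)).mpr (w_summable hD)) hs
  rw [tsum_mul_left, tsum_geometric_two] at h1
  have h2 : v / 2 ^ (I + 2) * 2 < v := by
    rw [div_mul_eq_mul_div, div_lt_iff₀ (by positivity)]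
    have : (2 : ℝ) < 2 ^ (I + 2) := by
      have h4 : (1 : ℝ) ≤ 2 ^ I := one_le_pow₀ (by norm_num)
      rw [pow_add]; linarith
    exact mul_lt_mul_of_pos_left this hv0
  linarith

omit hD in
theorem W_tendsto : Tendsto (W x D) atTop (𝓝 0) := by
  have := tendsto_sum_nat_add (w x D)
  exact this

theorem W_anti : Antitone (W x D) := by
  apply antitone_nat_of_succ_le
  intro n
  have hs : Summable (fun k => w x D (k + n)) := (summable_nat_add_iff n).mpr (w_summable hD)
  unfold W
  rw [hs.tsum_eq_zero_add]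
  have h0 := w_nonneg x D (0 + n)
  have : (fun b => w x D (b + 1 + n)) = (fun b => w x D (b + (n + 1))) := by
    funext b; congr 1; ring
  rw [this]
  linarith

/-- coefficients of at most linear growth give summable series -/
theorem summable_coef {c : ℕ → ℤ} {B : ℕ} (hc : ∀ s, |c s| ≤ s + B) :
    Summable (fun s => c s • ((D s : ℤ) • x)) := by
  refine Summable.of_norm_bounded (g := fun s => ((B : ℝ) + 1) * w x D s)
    ((w_summable hD).mul_left _) ?_
  intro s
  refine (norm_zsmul_le _ _).trans ?_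
  have h1 : ‖c s‖ ≤ (s : ℝ) + B := by
    rw [Int.norm_eq_abs]
    exact_mod_cast hc s
  have h2 : (s : ℝ) + B ≤ (B + 1) * (2 * (s + 1)) := by
    have h3 : (0 : ℝ) ≤ s := Nat.cast_nonneg s
    have h4 : (0 : ℝ) ≤ B := Nat.cast_nonneg B
    nlinarith [mul_nonneg h3 h4]
  calc ‖c s‖ * ‖(D s : ℤ) • x‖ ≤ ((B + 1) * (2 * (s + 1))) * ‖(D s : ℤ) • x‖ := by
        gcongr; exact h1.trans h2
    _ = _ := by unfold w; ring

theorem Phi_add {c d : ℕ → ℤ} {B C : ℕ} (hc : ∀ s, |c s| ≤ s + B) (hd : ∀ s, |d s| ≤ s + C) :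
    Phi x D (fun s => c s + d s) = Phi x D c + Phi x D d := by
  unfold Phi
  rw [← Summable.tsum_add (summable_coef hD hc) (summable_coef hD hd)]
  congr 1
  funext s
  rw [add_smul]

theorem Phi_sub {c d : ℕ → ℤ} {B C : ℕ} (hc : ∀ s, |c s| ≤ s + B) (hd : ∀ s, |d s| ≤ s + C) :
    Phi x D (fun s => c s - d s) = Phi x D c - Phi x D d := by
  unfold Phi
  rw [← Summable.tsum_sub (summable_coef hD hc) (summable_coef hD hd)]
  congr 1
  funext s
  rw [sub_smul]

/-- the norm of a series whose first coefficients vanish -/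
theorem norm_Phi {c : ℕ → ℤ} {t : ℕ} (h0 : ∀ s, s < t → c s = 0)
    (hc : ∀ s, t ≤ s → |c s| ≤ 2 * (s + 1)) : ‖Phi x D c‖ ≤ W x D t := by
  have hb : ∀ k, ‖c (k + t) • ((D (k + t) : ℤ) • x)‖ ≤ w x D (k + t) := by
    intro k
    refine (norm_zsmul_le _ _).trans ?_
    unfold w
    gcongr
    rw [Int.norm_eq_abs]
    have := hc (k + t) (by omega)
    exact_mod_cast this
  have hs' : Summable (fun k => w x D (k + t)) := (summable_nat_add_iff t).mpr (w_summable hD)
  have hs : Summable (fun s => c s • ((D s : ℤ) • x)) := by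
    rw [← summable_nat_add_iff t]
    exact Summable.of_norm_bounded hs' hb
  have h1 := hs.sum_add_tsum_nat_add t
  have h2 : ∑ i ∈ Finset.range t, c i • ((D i : ℤ) • x) = 0 := by
    apply Finset.sum_eq_zero
    intro i hi
    rw [h0 i (Finset.mem_range.mp hi), zero_smul]
  rw [h2, zero_add] at h1
  unfold Phi
  rw [← h1]
  exact tsum_of_norm_bounded hs'.hasSum hb

/-- uniqueness of the coefficients -/
theorem coef_unique (hx : ∀ K : ℤ, K ≠ 0 → K • x ≠ 0) (hD1 : ∀ s, 1 ≤ D s) {c : ℕ → ℤ} {B : ℕ}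
    (hc : ∀ s, |c s| ≤ s + B) (h0 : Phi x D c = 0) (s : ℕ) (hs : B < s) : c s = 0 := by
  have key : ∀ I, B ≤ I → ∑ i ∈ Finset.range (I + 1), c i * (D i : ℤ) = 0 := by
    intro I hI
    by_contra hne
    set K := ∑ i ∈ Finset.range (I + 1), c i * (D i : ℤ) with hK
    have h1 := (summable_coef hD hc).sum_add_tsum_nat_add (I + 1)
    have h2 : ∑ i ∈ Finset.range (I + 1), c i • ((D i : ℤ) • x) = K • x := by
      rw [hK, Finset.sum_smul]
      apply Finset.sum_congr rfl
      intro i _
      rw [mul_smul]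
    have h3 : K • x = - ∑' k, c (k + (I + 1)) • ((D (k + (I + 1)) : ℤ) • x) := by
      rw [← h2]
      unfold Phi at h0
      rw [h0] at h1
      exact eq_neg_of_add_eq_zero_left h1
    have h4 : ‖K • x‖ ≤ W x D (I + 1) := by
      rw [h3, norm_neg]
      have hs' : Summable (fun k => w x D (k + (I + 1))) :=
        (summable_nat_add_iff (I + 1)).mpr (w_summable hD)
      refine tsum_of_norm_bounded hs'.hasSum ?_
      intro k
      refine (norm_zsmul_le _ _).trans ?_
      unfold w
      gcongr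
      rw [Int.norm_eq_abs]
      have h5 := hc (k + (I + 1))
      have h6 : |c (k + (I + 1))| ≤ 2 * (((k + (I + 1) : ℕ) : ℤ) + 1) := by
        push_cast at h5 ⊢
        omega
      exact_mod_cast h6
    have h5 : |K| ≤ ((2 * (I + 1) * ∑ i ∈ Finset.range (I + 1), D i : ℕ) : ℤ) := by
      rw [hK]
      refine (Finset.abs_sum_le_sum_abs _ _).trans ?_
      push_cast
      rw [Finset.mul_sum]
      apply Finset.sum_le_sum
      intro i hi
      rw [abs_mul, Nat.abs_cast]
      gcongr
      have h7 := hc i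
      have h8 := Finset.mem_range.mp hi
      omega
    have h6 := nu_le x _ K hne h5
    have h7 := W_lt hD hx I
    linarith
  obtain ⟨I, rfl⟩ : ∃ I, s = I + 1 := ⟨s - 1, by omega⟩
  have h1 := key I (by omega)
  have h2 := key (I + 1) (by omega)
  rw [Finset.sum_range_succ, h1, zero_add] at h2
  rcases mul_eq_zero.mp h2 with h3 | h3
  · exact h3
  · have := hD1 (I + 1)
    omega

/-- The subgroup `H`: all sums with bounded coefficients. -/
noncomputable def H : AddSubgroup UnitAddCircle where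
  carrier := {z | ∃ B : ℕ, ∃ c : ℕ → ℤ, (∀ s, |c s| ≤ B) ∧ z = Phi x D c}
  zero_mem' := ⟨0, fun _ => 0, by simp, by simp [Phi]⟩
  add_mem' := by
    rintro a b ⟨B, c, hc, rfl⟩ ⟨C, d, hd, rfl⟩
    refine ⟨B + C, fun s => c s + d s, ?_, ?_⟩
    · intro s
      refine (abs_add_le _ _).trans ?_
      push_cast
      exact add_le_add (hc s) (hd s)
    · rw [Phi_add hD (B := B) (C := C)]
      · intro s; have := hc s; omega
      · intro s; have := hd s; omega
  neg_mem' := by
    rintro a ⟨B, c, hc, rfl⟩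
    refine ⟨B, fun s => - c s, ?_, ?_⟩
    · intro s; rw [abs_neg]; exact hc s
    · unfold Phi
      rw [← tsum_neg]
      congr 1
      funext s
      rw [neg_smul]

theorem mem_H {z : UnitAddCircle} : z ∈ H hD ↔
    ∃ B : ℕ, ∃ c : ℕ → ℤ, (∀ s, |c s| ≤ B) ∧ z = Phi x D c := Iff.rfl

theorem H_sigmaCompact : IsSigmaCompact (H hD : Set UnitAddCircle) := by
  have h1 : (H hD : Set UnitAddCircle) =
      ⋃ B : ℕ, Phi x D '' {c : ℕ → ℤ | ∀ s, c s ∈ Set.Icc (-(B : ℤ)) B} := by
    ext z
    simp only [SetLike.mem_coe, mem_H, Set.mem_iUnion, Set.mem_image, Set.mem_ofPred_eq,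
      Set.mem_Icc, abs_le]
    constructor
    · rintro ⟨B, c, hc, rfl⟩
      exact ⟨B, c, hc, rfl⟩
    · rintro ⟨B, c, hc, rfl⟩
      exact ⟨B, c, hc, rfl⟩
  rw [h1]
  apply isSigmaCompact_iUnion_of_isCompact
  intro B
  have hK : IsCompact {c : ℕ → ℤ | ∀ s, c s ∈ Set.Icc (-(B : ℤ)) B} := by
    have := isCompact_univ_pi (X := fun _ : ℕ => ℤ) (s := fun _ => Set.Icc (-(B : ℤ)) B)
      (fun _ => (Set.finite_Icc _ _).isCompact)
    convert this using 1
    ext c
    simp only [Set.mem_pi, Set.mem_univ, true_implies]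
    exact Iff.rfl
  apply hK.image_of_continuousOn
  unfold Phi
  refine continuousOn_tsum (u := fun s => (B : ℝ) * w x D s) ?_ ((w_summable hD).mul_left _) ?_
  · intro s
    apply Continuous.continuousOn
    have h2 : Continuous (fun c : ℕ → ℤ => c s) := continuous_apply s
    have h3 : Continuous (fun k : ℤ => k • ((D s : ℤ) • x)) := continuous_of_discreteTopology
    exact h3.comp h2
  · intro s c hc
    refine (norm_zsmul_le _ _).trans ?_
    have h2 : ‖c s‖ ≤ (B : ℝ) := by
      rw [Int.norm_eq_abs]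
      have := hc s
      rw [Set.mem_Icc, ← abs_le] at this
      exact_mod_cast this
    have h3 : ‖(D s : ℤ) • x‖ ≤ w x D s := by
      unfold w
      have h4 : (0 : ℝ) ≤ s := Nat.cast_nonneg s
      have h5 := norm_nonneg ((D s : ℤ) • x)
      nlinarith [mul_nonneg h4 h5]
    exact mul_le_mul h2 h3 (norm_nonneg _) (Nat.cast_nonneg _)

omit hD in
/-- the function `F` -/
theorem modulus {a : ℕ → ℤ} {S : Set ℕ} {z : UnitAddCircle}
    (h : Tendsto (fun n => a n • z) (atTop ⊓ 𝓟 Sᶜ) (𝓝 0)) :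
    ∃ F : ℕ → ℕ, Monotone F ∧
      ∀ N n, n ∉ S → (F N : ℤ) < |a n| → ‖a n • z‖ < 1 / ((N : ℝ) + 1) := by
  have h1 : ∀ N : ℕ, ∃ M : ℕ, ∀ n, M ≤ n → n ∉ S → ‖a n • z‖ < 1 / ((N : ℝ) + 1) := by
    intro N
    have h2 := (Metric.tendsto_nhds.mp h) (1 / ((N : ℝ) + 1)) (by positivity)
    rw [eventually_inf_principal] at h2
    obtain ⟨M, hM⟩ := eventually_atTop.mp h2
    refine ⟨M, fun n hn hS => ?_⟩
    have := hM n hn hS
    rwa [dist_zero_right] at this
  choose M hM using h1
  refine ⟨fun N => ∑ i ∈ Finset.range (N + 1), ∑ n ∈ Finset.range (M i), (a n).natAbs, ?_, ?_⟩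
  · apply monotone_nat_of_le_succ
    intro n
    apply Finset.sum_le_sum_of_subset
    intro i hi
    simp only [Finset.mem_range] at hi ⊢
    omega
  · intro N n hn hF
    apply hM N n _ hn
    by_contra hlt
    push Not at hlt
    have h3 : (a n).natAbs ≤ ∑ n ∈ Finset.range (M N), (a n).natAbs :=
      Finset.single_le_sum (f := fun n => (a n).natAbs) (fun _ _ => Nat.zero_le _)
        (Finset.mem_range.mpr hlt)
    have h4 : ∑ n ∈ Finset.range (M N), (a n).natAbs ≤
        ∑ i ∈ Finset.range (N + 1), ∑ n ∈ Finset.range (M i), (a n).natAbs :=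
      Finset.single_le_sum (f := fun i => ∑ n ∈ Finset.range (M i), (a n).natAbs)
        (fun _ _ => Nat.zero_le _) (Finset.mem_range.mpr (Nat.lt_succ_self N))
    have h5 : ((a n).natAbs : ℤ) ≤
        ((∑ i ∈ Finset.range (N + 1), ∑ n ∈ Finset.range (M i), (a n).natAbs : ℕ) : ℤ) := by
      exact_mod_cast h3.trans h4
    rw [Int.natCast_natAbs] at h5
    exact absurd h5 (not_le.mpr hF)

omit hD in
/-- sparse sequences -/
theorem exists_sparse (ρ : ℕ → ℝ) (hρ : ∀ k, 0 < ρ k) :
    ∃ σ : ℕ → ℕ, StrictMono σ ∧ ∀ m, W x D (σ (m + 1)) ≤ ρ (σ m) := by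
  have h1 : ∀ k : ℕ, ∃ l, k < l ∧ W x D l ≤ ρ k := by
    intro k
    have h2 : ∀ᶠ l in atTop, W x D l ≤ ρ k :=
      (W_tendsto (x := x) (D := D)).eventually_le_const (hρ k)
    have h3 := h2.and (eventually_gt_atTop k)
    obtain ⟨l, hl, hl2⟩ := h3.exists
    exact ⟨l, hl2, hl⟩
  choose g hg1 hg2 using h1
  refine ⟨fun n => Nat.rec 0 (fun _ s => g s) n, ?_, ?_⟩
  · exact strictMono_nat_of_lt_succ (fun n => hg1 _)
  · intro m
    exact hg2 _

open Classical in
theorem main (hx : ∀ K : ℤ, K ≠ 0 → K • x ≠ 0) (hD0 : D 0 = 1) (hD1 : ∀ s, 1 ≤ D s)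
    (I : Set (Set ℕ)) (hI : IsIdeal I) (a : ℕ → ℤ) :
    Hstar a I ≠ (H hD : Set UnitAddCircle) := by
  intro heq
  have hmem : ∀ z, z ∈ H hD → z ∈ Hstar a I := by
    intro z hz
    rw [heq]; exact hz
  -- `x` belongs to `H`
  have hxH : x ∈ H hD := by
    rw [mem_H]
    refine ⟨1, fun s => if s = 0 then 1 else 0, ?_, ?_⟩
    · intro s
      beta_reduce
      split_ifs <;> simp
    · unfold Phi
      rw [tsum_eq_single 0]
      · simp [hD0]
      · intro s hs; simp [hs]
  obtain ⟨S0, hS0, hT0⟩ := hmem x hxH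
  obtain ⟨F, hFm, hF⟩ := modulus hT0
  set P : ℕ → ℕ := fun t => ∑ i ∈ Finset.range (t + 1), D i with hP
  have hPpos : ∀ t, 1 ≤ P t := by
    intro t
    calc 1 ≤ D 0 := hD1 0
      _ ≤ P t := Finset.single_le_sum (f := D) (fun _ _ => Nat.zero_le _) (by simp)
  have hPm : Monotone P := by
    apply monotone_nat_of_le_succ
    intro n
    apply Finset.sum_le_sum_of_subset
    intro i hi
    simp only [Finset.mem_range] at hi ⊢
    omega
  set G : ℕ → ℕ := fun t => (t + 1) ^ 2 * P t with hG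
  obtain ⟨σ, hσ, hρ⟩ := exists_sparse (x := x) (D := D)
    (fun s => 1 / (2 ^ (s + 1) * ((F (G s) : ℝ) + s + 1))) (fun s => by positivity)
  have hσge : ∀ i, i ≤ σ i := fun i => hσ.le_apply
  set χ : ℕ → ℤ := fun s => if s ∈ Set.range σ then 1 else 0 with hχ
  have hχb : ∀ s, |χ s| ≤ (s : ℤ) + (1 : ℕ) := by
    intro s
    simp only [hχ]
    split_ifs <;> simp; omega
  set x' := Phi x D χ with hx'
  have hx'H : x' ∈ H hD := by
    rw [mem_H]
    refine ⟨1, χ, ?_, rfl⟩
    intro s
    simp only [hχ]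
    split_ifs <;> simp
  obtain ⟨S1, hS1, hT1⟩ := hmem x' hx'H
  obtain ⟨F', hFm', hF'⟩ := modulus hT1
  have hWσ : Tendsto (fun m => W x D (σ (m + 1))) atTop (𝓝 0) :=
    (W_tendsto (x := x) (D := D)).comp (hσ.tendsto_atTop.comp (tendsto_add_atTop_nat 1))
  have hev : ∀ j : ℕ, ∀ᶠ k in atTop, (F' ((j + 1) ^ 2) : ℝ) * W x D (σ (k + 1)) ≤
      1 / 2 ^ (j + 1) := by
    intro j
    have h2 := hWσ.const_mul (F' ((j + 1) ^ 2) : ℝ)
    rw [mul_zero] at h2
    exact h2.eventually_le_const (by positivity)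
  obtain ⟨m, hm, hm2⟩ := extraction_forall_of_eventually hev
  set t : ℕ → ℕ := fun l => σ (m l) with ht
  have htm : StrictMono t := hσ.comp hm
  have htge : ∀ l, l ≤ t l := fun l => htm.le_apply
  set E : ℕ → ℕ → ℤ := fun p s => if s ∈ Set.range σ then
    (((Finset.range s).filter (fun l => p ≤ l ∧ t l < s)).card : ℤ) else 0 with hE
  have hEb : ∀ p s, 0 ≤ E p s ∧ E p s ≤ s := by
    intro p s
    simp only [hE]
    split_ifs with h
    · refine ⟨by positivity, ?_⟩
      have := Finset.card_filter_le (Finset.range s) (fun l => p ≤ l ∧ t l < s)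
      rw [Finset.card_range] at this
      exact_mod_cast this
    · exact ⟨le_refl _, by positivity⟩
  have hEb' : ∀ p s, |E p s| ≤ (s : ℤ) + (0 : ℕ) := by
    intro p s
    rw [abs_of_nonneg (hEb p s).1]
    have := (hEb p s).2
    simpa using this
  set κ : ℕ → ℤ := fun p => ∑ s ∈ Finset.range (t p + 1), χ s * (D s : ℤ) with hκ
  have hκ0 : ∀ p, 0 ≤ κ p := by
    intro p
    apply Finset.sum_nonneg
    intro s _
    simp only [hχ]
    split_ifs <;> simp
  have hκP : ∀ p, κ p ≤ P (t p) := by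
    intro p
    simp only [hκ, hP]
    push_cast
    apply Finset.sum_le_sum
    intro s _
    simp only [hχ]
    split_ifs <;> simp
  -- one step
  have hstep : ∀ p, Phi x D (E p) = Phi x D (E (p + 1)) + (x' - κ p • x) := by
    intro p
    set χ' : ℕ → ℤ := fun s => if s ∈ Set.range σ ∧ t p < s then 1 else 0 with hχ'
    have hχ'b : ∀ s, |χ' s| ≤ (s : ℤ) + (1 : ℕ) := by
      intro s
      simp only [hχ']
      split_ifs <;> simp; omega
    have e1 : E p = fun s => E (p + 1) s + χ' s := by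
      funext s
      simp only [hE, hχ']
      by_cases hs : s ∈ Set.range σ
      · simp only [hs, if_true, true_and]
        by_cases hts : t p < s
        · simp only [hts, if_true]
          have hps : p < s := lt_of_le_of_lt (htge p) hts
          have : (Finset.range s).filter (fun l => p ≤ l ∧ t l < s) =
              insert p ((Finset.range s).filter (fun l => p + 1 ≤ l ∧ t l < s)) := by
            ext l
            simp only [Finset.mem_filter, Finset.mem_range, Finset.mem_insert]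
            constructor
            · rintro ⟨h1, h2, h3⟩
              rcases Nat.eq_or_lt_of_le h2 with h4 | h4
              · left; exact h4.symm
              · right; exact ⟨h1, h4, h3⟩
            · rintro (rfl | ⟨h1, h2, h3⟩)
              · exact ⟨hps, le_refl _, hts⟩
              · exact ⟨h1, by omega, h3⟩
          rw [this, Finset.card_insert_of_notMem]
          · push_cast; ring
          · simp
        · simp only [hts, if_false, add_zero]
          congr 2
          ext l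
          simp only [Finset.mem_filter, Finset.mem_range]
          constructor
          · rintro ⟨h1, h2, h3⟩
            have h4 : t p ≤ t l := htm.monotone h2
            omega
          · rintro ⟨h1, h2, h3⟩
            exact ⟨h1, by omega, h3⟩
      · simp [hs]
    have e2 : χ = fun s => χ' s + (if s < t p + 1 then χ s else 0) := by
      funext s
      simp only [hχ', hχ]
      by_cases hs : s ∈ Set.range σ
      · by_cases hts : t p < s
        · simp [hs, hts]
        · have h5 : s < t p + 1 := by omega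
          simp [hs, hts, h5]
      · simp [hs]
    have e3 : Phi x D (fun s => if s < t p + 1 then χ s else 0) = κ p • x := by
      unfold Phi
      rw [tsum_eq_sum (s := Finset.range (t p + 1))]
      · rw [hκ, Finset.sum_smul]
        apply Finset.sum_congr rfl
        intro s hs
        beta_reduce
        rw [if_pos (Finset.mem_range.mp hs), mul_smul]
      · intro s hs
        beta_reduce
        rw [if_neg (by simpa using hs), zero_smul]
    have e4 : x' = Phi x D χ' + κ p • x := by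
      rw [hx', ← e3, ← Phi_add hD (B := 1) (C := 1) hχ'b]
      · rw [← e2]
      · intro s
        split_ifs
        · exact hχb s
        · simp; omega
    rw [e1, Phi_add hD (B := 0) (C := 1) (hEb' (p + 1)) hχ'b, e4]
    abel
  have hsum : ∀ p, Phi x D (E 0) = Phi x D (E p) + ((p : ℤ) • x' -
      (∑ l ∈ Finset.range p, κ l) • x) := by
    intro p
    induction p with
    | zero => simp
    | succ p ih =>
      rw [ih, hstep p, Finset.sum_range_succ]
      push_cast
      rw [add_smul, add_smul, one_smul]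
      abel
  have hnorm : ∀ p, ‖Phi x D (E p)‖ ≤ W x D (σ (m p + 1)) := by
    intro p
    apply norm_Phi hD
    · intro s hs
      simp only [hE]
      split_ifs with h
      · obtain ⟨i, rfl⟩ := h
        rw [hσ.lt_iff_lt] at hs
        have h1 : σ i ≤ t p := hσ.monotone (by omega)
        rw [Finset.card_eq_zero.mpr]
        · simp
        · apply Finset.filter_false_of_mem
          rintro l _ ⟨h2, h3⟩
          have := htm.monotone h2
          omega
      · rfl
    · intro s _
      have := hEb p s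
      rw [abs_of_nonneg this.1]
      omega
  set y := Phi x D (E 0) with hy
  set L : ℕ → ℕ := fun j => F (G (t j)) + F' ((j + 1) ^ 2) + j + 1 with hL
  have hLW : ∀ j, (L j : ℝ) * W x D (σ (m j + 1)) ≤ 2 / 2 ^ (j + 1) := by
    intro j
    have h1 := hρ (m j)
    have h2 := hm2 j
    have h3 : (0 : ℝ) < (F (G (t j)) : ℝ) + t j + 1 := by positivity
    have h4 : ((F (G (t j)) : ℝ) + t j + 1) * W x D (σ (m j + 1)) ≤ 1 / 2 ^ (t j + 1) := by
      calc ((F (G (t j)) : ℝ) + t j + 1) * W x D (σ (m j + 1)) ≤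
          ((F (G (t j)) : ℝ) + t j + 1) * (1 / (2 ^ (t j + 1) * ((F (G (t j)) : ℝ) + t j + 1))) := by
            apply mul_le_mul_of_nonneg_left h1 h3.le
        _ = 1 / 2 ^ (t j + 1) := by field_simp
    have h5 : (1 : ℝ) / 2 ^ (t j + 1) ≤ 1 / 2 ^ (j + 1) := by
      apply one_div_le_one_div_of_le (by positivity)
      apply pow_le_pow_right₀ (by norm_num)
      have := htge j
      omega
    have h6 : (0 : ℝ) ≤ W x D (σ (m j + 1)) := by
      unfold W
      exact tsum_nonneg (fun k => w_nonneg _ _ _)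
    have h7 : (j : ℝ) ≤ t j := by exact_mod_cast htge j
    have h8 : (L j : ℝ) ≤ ((F (G (t j)) : ℝ) + t j + 1) + F' ((j + 1) ^ 2) := by
      simp only [hL]
      push_cast
      linarith
    calc (L j : ℝ) * W x D (σ (m j + 1)) ≤
        (((F (G (t j)) : ℝ) + t j + 1) + F' ((j + 1) ^ 2)) * W x D (σ (m j + 1)) := by
          apply mul_le_mul_of_nonneg_right h8 h6
      _ ≤ 1 / 2 ^ (j + 1) + 1 / 2 ^ (j + 1) := by
          rw [add_mul]
          exact add_le_add (h4.trans h5) h2
      _ = 2 / 2 ^ (j + 1) := by ring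
  have hLm : StrictMono L := by
    apply strictMono_nat_of_lt_succ
    intro j
    have h1 : F (G (t j)) ≤ F (G (t (j + 1))) := by
      apply hFm
      have h2 : t j ≤ t (j + 1) := htm.monotone (Nat.le_succ j)
      simp only [hG]
      exact Nat.mul_le_mul (Nat.pow_le_pow_left (by omega) 2) (hPm h2)
    have h3 : F' ((j + 1) ^ 2) ≤ F' ((j + 1 + 1) ^ 2) := by
      apply hFm'
      exact Nat.pow_le_pow_left (by omega) 2
    simp only [hL]
    omega
  -- the estimate in the window
  have hwin : ∀ j n, n ∉ S0 → n ∉ S1 → (L j : ℤ) < |a n| → |a n| ≤ (L (j + 1) : ℤ) →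
      ‖a n • y‖ ≤ 3 / ((j : ℝ) + 1) := by
    intro j n hn0 hn1 hl hu
    have h1 := hsum (j + 1)
    have h2 : a n • y = a n • Phi x D (E (j + 1)) + (((j + 1 : ℕ) : ℤ) • (a n • x') -
        (∑ l ∈ Finset.range (j + 1), κ l) • (a n • x)) := by
      rw [h1, smul_add, smul_sub, smul_comm (a n) ((j + 1 : ℕ) : ℤ) x',
        smul_comm (a n) (∑ l ∈ Finset.range (j + 1), κ l) x]
    have h3 : ‖a n • Phi x D (E (j + 1))‖ ≤ 1 / ((j : ℝ) + 1) := by
      refine (norm_zsmul_le _ _).trans ?_
      have h4 : ‖a n‖ ≤ (L (j + 1) : ℝ) := by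
        rw [Int.norm_eq_abs]
        exact_mod_cast hu
      calc ‖a n‖ * ‖Phi x D (E (j + 1))‖ ≤ (L (j + 1) : ℝ) * W x D (σ (m (j + 1) + 1)) := by
            apply mul_le_mul h4 (hnorm _) (norm_nonneg _) (Nat.cast_nonneg _)
        _ ≤ 2 / 2 ^ (j + 1 + 1) := hLW (j + 1)
        _ = 1 / 2 ^ (j + 1) := by rw [pow_succ (2 : ℝ) (j + 1)]; field_simp
        _ ≤ 1 / ((j : ℝ) + 1) := by
            apply one_div_le_one_div_of_le (by positivity)
            have : j + 1 < 2 ^ (j + 1) := Nat.lt_two_pow_self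
            exact_mod_cast this.le
    have h5 : ‖((j + 1 : ℕ) : ℤ) • (a n • x')‖ ≤ 1 / ((j : ℝ) + 1) := by
      refine (norm_zsmul_le _ _).trans ?_
      have h6 := hF' ((j + 1) ^ 2) n hn1 (lt_of_le_of_lt (by simp only [hL]; push_cast; omega) hl)
      rw [Int.norm_eq_abs]
      push_cast at h6 ⊢
      rw [abs_of_pos (by positivity : (0 : ℝ) < (j : ℝ) + 1)]
      calc ((j : ℝ) + 1) * ‖a n • x'‖ ≤ ((j : ℝ) + 1) * (1 / (((j : ℝ) + 1) ^ 2 + 1)) := by
            apply mul_le_mul_of_nonneg_left h6.le (by positivity)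
        _ ≤ 1 / ((j : ℝ) + 1) := by
            rw [mul_one_div, div_le_div_iff₀ (by positivity) (by positivity)]
            nlinarith
    have h7 : ‖(∑ l ∈ Finset.range (j + 1), κ l) • (a n • x)‖ ≤ 1 / ((j : ℝ) + 1) := by
      refine (norm_zsmul_le _ _).trans ?_
      have h8 := hF (G (t j)) n hn0 (lt_of_le_of_lt (by simp only [hL]; push_cast; omega) hl)
      have h9 : (∑ l ∈ Finset.range (j + 1), κ l) ≤ ((j : ℤ) + 1) * P (t j) := by
        calc (∑ l ∈ Finset.range (j + 1), κ l) ≤ ∑ l ∈ Finset.range (j + 1), (P (t j) : ℤ) := by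
              apply Finset.sum_le_sum
              intro l hl
              refine (hκP l).trans ?_
              have : P (t l) ≤ P (t j) := hPm (htm.monotone (by
                have := Finset.mem_range.mp hl; omega))
              exact_mod_cast this
          _ = _ := by simp
      have h10 : 0 ≤ (∑ l ∈ Finset.range (j + 1), κ l) := Finset.sum_nonneg (fun l _ => hκ0 l)
      rw [Int.norm_eq_abs]
      have h11 : |((∑ l ∈ Finset.range (j + 1), κ l : ℤ) : ℝ)| ≤ ((j : ℝ) + 1) * P (t j) := by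
        rw [← Int.cast_abs, abs_of_nonneg h10]
        exact_mod_cast h9
      have hPt : (1 : ℝ) ≤ P (t j) := by exact_mod_cast hPpos (t j)
      have h12 : ((j : ℝ) + 1) ^ 2 * P (t j) ≤ (G (t j) : ℝ) := by
        simp only [hG]
        push_cast
        have h7 : (j : ℝ) ≤ t j := by exact_mod_cast htge j
        gcongr
      calc |((∑ l ∈ Finset.range (j + 1), κ l : ℤ) : ℝ)| * ‖a n • x‖ ≤
          (((j : ℝ) + 1) * P (t j)) * (1 / ((G (t j) : ℝ) + 1)) := by
            apply mul_le_mul h11 h8.le (norm_nonneg _) (by positivity)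
        _ ≤ 1 / ((j : ℝ) + 1) := by
            rw [mul_one_div, div_le_div_iff₀ (by positivity) (by positivity)]
            nlinarith
    rw [h2]
    calc ‖a n • Phi x D (E (j + 1)) + (((j + 1 : ℕ) : ℤ) • (a n • x') -
        (∑ l ∈ Finset.range (j + 1), κ l) • (a n • x))‖ ≤
        1 / ((j : ℝ) + 1) + (1 / ((j : ℝ) + 1) + 1 / ((j : ℝ) + 1)) := by
          refine (norm_add_le _ _).trans (add_le_add h3 ?_)
          exact (norm_sub_le _ _).trans (add_le_add h5 h7)
      _ = 3 / ((j : ℝ) + 1) := by ring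
  -- `y` belongs to `H`
  have hyS : y ∈ Hstar a I := by
    refine ⟨S0 ∪ S1, hI.union _ hS0 _ hS1, ?_⟩
    rw [Metric.tendsto_nhds]
    intro ε hε
    rw [eventually_inf_principal]
    obtain ⟨J, hJ⟩ := exists_nat_gt (3 / ε)
    have hν := nu_pos hx (L J)
    have h1 := (Metric.tendsto_nhds.mp hT0) _ hν
    rw [eventually_inf_principal] at h1
    filter_upwards [h1] with n hn hS
    rw [dist_zero_right] at hn ⊢
    have hS0' : n ∉ S0 := fun h => hS (Or.inl h)
    have hS1' : n ∉ S1 := fun h => hS (Or.inr h)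
    by_cases h0 : a n = 0
    · rw [h0, zero_smul, norm_zero]; exact hε
    have hbig : (L J : ℤ) < |a n| := by
      by_contra hle
      push Not at hle
      have := nu_le x (L J) (a n) h0 hle
      have := hn hS0'
      linarith
    -- find the window
    have hex : ∃ k, |a n| ≤ (L k : ℤ) := by
      refine ⟨(a n).natAbs, ?_⟩
      have := hLm.le_apply (x := (a n).natAbs)
      rw [← Int.natCast_natAbs]
      exact_mod_cast this
    have hk := Nat.find_spec hex
    have hk2 : ∀ i, i < Nat.find hex → (L i : ℤ) < |a n| := by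
      intro i hi
      have := Nat.find_min hex hi
      omega
    have hkJ : J < Nat.find hex := by
      by_contra hle
      push Not at hle
      have h3 : (L (Nat.find hex) : ℤ) ≤ L J := by exact_mod_cast hLm.monotone hle
      omega
    obtain ⟨j, hj⟩ : ∃ j, Nat.find hex = j + 1 := ⟨Nat.find hex - 1, by omega⟩
    have h4 := hwin j n hS0' hS1' (hk2 j (by omega)) (by rw [← hj]; exact hk)
    refine lt_of_le_of_lt h4 ?_
    have h5 : (J : ℝ) ≤ j := by
      have : J ≤ j := by omega
      exact_mod_cast this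
    rw [div_lt_iff₀ hε] at hJ
    rw [div_lt_iff₀ (by positivity)]
    nlinarith
  rw [heq] at hyS
  obtain ⟨B, b, hb, hyb⟩ := (mem_H hD).mp hyS
  -- contradiction
  have h1 : Phi x D (fun s => E 0 s - b s) = 0 := by
    rw [Phi_sub hD (B := 0) (C := B) (hEb' 0)]
    · rw [← hyb, hy, sub_self]
    · intro s; have := hb s; omega
  have h2 : ∀ s, |E 0 s - b s| ≤ (s : ℤ) + B := by
    intro s
    refine (abs_sub _ _).trans ?_
    have h3 := hEb' 0 s
    have h4 := hb s
    simp only [Nat.cast_zero, add_zero] at h3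
    exact add_le_add h3 h4
  have h3 := coef_unique hD hx hD1 h2 h1 (σ (m B + 1)) (by
    have h5 := hσge (m B + 1)
    have h6 := hm.le_apply (x := B)
    omega)
  have h4 : (B : ℤ) + 1 ≤ E 0 (σ (m B + 1)) := by
    simp only [hE]
    rw [if_pos (Set.mem_range_self _)]
    have h5 : Finset.range (B + 1) ⊆ (Finset.range (σ (m B + 1))).filter
        (fun l => 0 ≤ l ∧ t l < σ (m B + 1)) := by
      intro l hl
      have h6 : l ≤ B := by have := Finset.mem_range.mp hl; omega
      have h7 : t l ≤ t B := htm.monotone h6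
      have h8 : t B < σ (m B + 1) := hσ (Nat.lt_succ_self _)
      have h9 := htge l
      simp only [Finset.mem_filter, Finset.mem_range]
      exact ⟨by omega, Nat.zero_le _, by omega⟩
    have h6 := Finset.card_le_card h5
    rw [Finset.card_range] at h6
    exact_mod_cast h6
  have h5 := hb (σ (m B + 1))
  have h6 := (abs_le.mp h5).2
  omega

end group

/-- There is a `σ`-compact subgroup of the circle that is not `I*`-characterized for any ideal
`I` on `ℕ`. -/
theorem result : ∃ H : AddSubgroup UnitAddCircle, IsSigmaCompact (H : Set UnitAddCircle) ∧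
    ∀ I : Set (Set ℕ), IsIdeal I → ∀ a : ℕ → ℤ, Hstar a I ≠ (H : Set UnitAddCircle) := by
  obtain ⟨D, hD0, hD1, hD⟩ := exists_D base_ne
  exact ⟨H hD, H_sigmaCompact hD, fun I hI a => main hD base_ne hD0 hD1 I hI a⟩

end Pool.Agent.Results.MP_8013b9_lc.NotIStarCharacterized
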